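import Pool.Agent.Q295.PL.Stm

/-!
# Project LC2, statements 2: all `d ≥ 2`, probability and conclusions
-/

set_option autoImplicit false

namespace Q295.PL

open Finset Equiv Matrix Q292.LC
open Pool.Agent.Y998.ST (stirExp nnRate qq)

/-- BXP. Poincaré inequality in a box.
Proof. Join `x, y ∈ box z R` by the path in the box which changes the coordinates one after the other
(`z_i + a` with `0 ≤ a < R`, unit steps): at most `d R` edges, so `(g x - g y)² ≤ d R ∑_path (..)²`. A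
given edge of direction `i` is used by at most `R^(d+1)` pairs: the coordinates `< i` of `y` and the
coordinates `> i` of `x` are given, the other ones are free (`R^(d-1)` choices), and there are at most `R²`
choices for the coordinates `i`. -/
def S_BXP : Prop := ∀ (d L : ℕ) [NeZero L], 1 ≤ d → 3 ≤ L → ∀ (z : Fin d → ZMod L) (R : ℕ),
  1 ≤ R → R ≤ L → ∀ g : (Fin d → ZMod L) → ℝ,
  ∑ x ∈ box z R, ∑ y ∈ box z R, (g x - g y) ^ 2 ≤ d * (R : ℝ) ^ (d + 2) * gE g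

/-- CHN. The mean over a box and the mean over the torus, `d ≥ 2`.
Proof. Let `h_R z` be the mean of `g` over `box z R` (`R ≤ L`, so `R^d` points). For `2 R ≤ L` `box z (2R)`
is the disjoint union of the boxes `box (z + R ε) R`, `ε ∈ {0,1}^d`, so `h_(2R) z` is the mean of
`h_R (z + R ε)`. For each `ε`: `(h_R (z + R ε) - h_R z)² ≤ R^(-d) ∑_{x ∈ box z R} (g (x + R ε) - g x)²
≤ R^(-d) (d R) R gE g ≤ d gE g`: path of `≤ d R` unit steps, coordinate by coordinate, Cauchy-Schwarz; an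
edge of direction `i` is used by at most `R` points `x` (only the coordinate `i` of `x` is not determined);
`R^(2-d) ≤ 1`. So `|h_(2R) z - h_R z| ≤ √(d gE g)`. Let `j` be maximal with `R := 2^j r ≤ L`; `j ≤ log₂ L`,
`R > L / 2`, `|h_R z - h_r z| ≤ j √(d gE g)`. For all `z'`, in the same way (paths from `x` to
`x + (z' - z)`, `≤ d L` steps, every edge used at most `L` times): `(h_R z' - h_R z)² ≤ R^(-d) d L² gE g ≤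
2^d d gE g` (`L² ≤ 4 R² ≤ 4 R^d`: constant `4 d` is fine too). The mean of `h_R z'` over `z'` is the mean of
`g` over the torus. -/
def S_CHN : Prop := ∀ d : ℕ, 2 ≤ d → ∃ C : ℝ, 1 ≤ C ∧ ∀ (L : ℕ) [NeZero L], 3 ≤ L →
  ∀ (z : Fin d → ZMod L) (r : ℕ), 1 ≤ r → r ≤ L → ∀ g : (Fin d → ZMod L) → ℝ,
  ((∑ x ∈ box z r, g x) / (r : ℝ) ^ d - (∑ x, g x) / (L : ℝ) ^ d) ^ 2 ≤
    C * (1 + Real.log L) ^ 2 * gE g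

/-- RNG. Range of the walk over `J` windows of `u` units.
Proof. One window (SUB; `A_j` its particles at its start): for every start `x'` the particles `a` with
`td x' a ≤ R + 2 + ρ u ≤ r` are at most `lam`, each makes at most `ρ u` jumps, no other particle comes near
`bal x' R`, so at most `lam ρ u` touched steps with coin `true` meet `bal x' R`. KIL
(Pool/Agent/Q53/LC/Kil.lean): mass at least `1 - exp (C₀ (u + lam ρ u) - R) ≥ 1 - exp (-Z)` stays in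
`bal x' R`. Induction on `J` with `TT ((J+1) u) = TT (J u) * (window matrix)` (BAS2) and the triangle
inequality: `(1 - J ε) (1 - ε) ≥ 1 - (J + 1) ε`. -/
def S_RNG : Prop := ∀ d : ℕ, 1 ≤ d → ∃ C : ℕ, 1 ≤ C ∧ ∀ (L : ℕ) [NeZero L], 3 ≤ L →
  ∀ σ : ℕ → (Fin d → ZMod L) × Fin d, Per σ → ∀ (ω : ℕ → Bool) (A : Finset (Fin d → ZMod L))
  (δ : ℝ) (q K lam r ρ κ₀ u J R Z : ℕ), 0 < δ → C * δ ≤ 1 → 1 ≤ δ * q → δ * q ≤ 2 →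
  Ev σ q K lam r ρ κ₀ ω A → J * u ≤ K → C * (lam + 1) * (ρ + 1) * u + Z + 2 ≤ R → 4 * R ≤ r →
  ∀ x, 1 - J * Real.exp (-(Z : ℝ)) ≤
    ∑ z ∈ bal x (J * R), TT (ed ∘ σ) ω A δ (J * u * (q * ms d L)) x z

/-- LMT. Resolvent form of `phz` in a good environment, all `d ≥ 2`.
Proof. Density: GE gives Ev with `κ₀ + 1` (for radius `r₁ - ρ ≥ r₁ / 2`); `box v r ⊆ bal v (d r)`, CNT:
`|A ∩ box v r| ≤ lam (2 (d r / (r₁ / d)) + 3)^d ≤ Z^m r^d / r₁^d` (`r₁ ≤ r`), which is `≤ r^d / 2`.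
Resolvent: by ENG (Pool/Agent/Q229/LC/Eng.lean) it is enough to show, for all `f`,
`(phz z · f)² ≤ Λ 𝓔`, `𝓔 = ∑ T x y (f x - f y)²`, `T = TT n`, `n = K q ms`, `Λ = Z^(m') K^(-3/8)`.
`𝓔 = 2 ∑ f² - 2 ∑ f T f = (∑ f² - ∑ (T f)²) + ∑ (f - T f)²`. Let `u = 4 Z³`, `R = C (Z+1)² u + Z + 2`,
`J = ⌊√K / u⌋ ≥ 1`, `T = T_(j) T'_(j)` with `T_(j)` the matrix of the first `j` windows of `u` units,
`f_j = T'_(j) f`, so `T f = T_(j) f_j`, `D_j = ∑ f_(j+1)² - ∑ f_j² ≥ 0`, `∑_{j<J} D_j ≤ 𝓔`; choose `j < J` with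
`D_j ≤ 𝓔 / J`. `G = f_j ∘ y` with `y` from EXT for the positions `A_j` (`m = lam`). WIN for window `j` (SUB):
`gE G ≤ C R^(d+1) 𝓔 / J`. Let `χ = chi r A z` (the uniform distribution on `box z r \ A`, which has at
least `r^d / 2` points). (i) `(χ · (f - T f))² ≤ ∑ χ² 𝓔 ≤ (2 / r^d) 𝓔`. (ii) For `x ∉ A` let `a_x` be the
average of `f_j` over `bal x (j R)` with the weights `T_(j) x ·`, which have mass `≥ 1/2` there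
(RNG: `J exp (-Z) ≤ 1/2`, since `K ≤ L² ≤ exp (2 Z)` and so on; use RNG with a multiple of `Z`). By JEN
`∑_x (a_x - (T f) x)² ≤ 2 (∑ f_j² - ∑ (T f)²) ≤ 2 𝓔`, so `(χ · (T f - a))² ≤ (2 / r^d) 2 𝓔`. (iii) `χ · a =
∑ μ f_j = ∑ μ G` with a probability measure `μ` off `A_j` (BAS2), `μ ≤ 2 (χ ᵥ* T_(j))`, so `∑ μ² ≤ 4 ∑ χ² ≤
8 / r^d`, supported in `bal z (d r + J R)`, which lies in a box `Q` of side `S = 2 (d r + J R) + 1 ≤ L`. With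
`c` the mean of `G` over `Q`: `(∑ μ (G - c))² ≤ (8 / r^d) ∑_Q (G - c)² ≤ (8 / r^d) d S² gE G` (BXP), and
`(c - mean of G over the torus)² ≤ C (1 + log L)² gE G` (CHN). (iv) `S² / J ≤ Z^(m'') √K`
(`r ≤ √K`), `1 / J ≤ 2 u / √K`, `r^d ≥ r² ≥ K^(7/8) / 4`, `1 + log L ≤ 2 Z`. So
`(χ_z · f - mean of G)² ≤ Z^(m''') 𝓔 (K^(-7/8) + K^(-7/8 + 1/2) + K^(-1/2))`; `j` and `G` do not depend on
`z`, and `phz z · f` is `χ_z · f` minus its mean over `z`. The conditions `S ≤ L`, `4 R ≤ r₁ / 2` hold: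
`√K ≤ L^(7/8)`, `Z^m ≤ K ≤ L^(7/4)` with `m` large. -/
def S_LMT : Prop := ∀ d : ℕ, 2 ≤ d → ∃ (C m : ℕ), 1 ≤ C ∧ ∀ Z : ℕ, C ≤ Z →
  ∀ (L K lam r₁ ρ κ₀ r : ℕ) [NeZero L], lam ≤ Z → ρ ≤ Z → κ₀ + 1 ≤ Z → (L : ℝ) ≤ Real.exp Z →
  2 * Z ^ m ≤ r₁ → r₁ ≤ r → Z ^ m ≤ K → K ^ 4 ≤ L ^ 7 → r ^ 16 ≤ K ^ 7 → K ^ 7 ≤ (2 * r) ^ 16 →
  ∃ q₀ : ℕ, ∀ q ≥ q₀,
  ∀ σ : ℕ → (Fin d → ZMod L) × Fin d, Per σ → ∀ δ : ℝ, 1 ≤ δ * q → δ * q ≤ 2 →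
  ∀ (ω : ℕ → Bool) (A : Finset (Fin d → ZMod L)), Gd σ q K lam r₁ ρ κ₀ ω A →
  r ≤ L ∧ (∀ v, ((A ∩ box v r).card : ℝ) ≤ (Z : ℝ) ^ m / (r₁ : ℝ) ^ d * (r : ℝ) ^ d) ∧
  ∀ (z : Fin d → ZMod L) (w : ℝ), 1 / 2 ≤ w → w < 1 →
    phz r A z ⬝ᵥ ((1 - w • (dg (univ \ A) * TT (ed ∘ σ) ω A δ (K * (q * ms d L))))⁻¹ *ᵥ
      phz r A z) ≤ (Z : ℝ) ^ m * (K : ℝ) ^ (-(3 / 8) : ℝ)

/-- CLT. Expected closeness, `d ≥ 2`.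
Proof. As `Q292.LC.S_CLO`: by PAI and FRE (a) the probability that `x, y` are at distance `≤ 3` at the start
of sweep `s` is at most `C ((1 + s δ)^(-d/2) + L^(-d)) ≤ C ((1 + s δ)^(-1) + L^(-d))`, and
`∑_{s < K q} (1 + s δ)^(-1) ≤ 1 + (1/δ) log (1 + K q δ) ≤ C q (1 + log₂ K)`, `K q L^(-d) ≤ q`. -/
def S_CLT : Prop := ∀ d : ℕ, 2 ≤ d → ∃ C : ℕ, 1 ≤ C ∧ ∀ (L : ℕ) [NeZero L], 3 ≤ L → ∀ K : ℕ,
  K ≤ L ^ d → ∃ q₀ : ℕ, ∀ q ≥ q₀, ∀ σ : ℕ → (Fin d → ZMod L) × Fin d, Per σ → ∀ δ : ℝ,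
  1 ≤ δ * q → δ * q ≤ 2 → ∀ x y, x ≠ y →
  EE (K * (q * ms d L)) δ (fun ω => (clo σ (K * q) ω x y : ℝ)) ≤ C * (1 + Nat.log 2 K) * q

open Classical in
/-- KHT. Exponential tail of the closeness, `d ≥ 2`.
Proof. As `Q292.LC.S_KHA` (proved in Pool/Agent/Q277/LC/Kha.lean; `B = C (1 + log₂ K) q` instead of
`C q`), with CLT instead of CLO. -/
def S_KHT : Prop := ∀ d : ℕ, 2 ≤ d → ∃ C : ℕ, 1 ≤ C ∧ ∀ (L : ℕ) [NeZero L], 3 ≤ L → ∀ K : ℕ,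
  K ≤ L ^ d → ∃ q₀ : ℕ, ∀ q ≥ q₀, ∀ σ : ℕ → (Fin d → ZMod L) × Fin d, Per σ → ∀ δ : ℝ,
  1 ≤ δ * q → δ * q ≤ 2 → ∀ x y, x ≠ y → ∀ m : ℕ,
  EE (K * (q * ms d L)) δ (fun ω =>
    if C * (1 + Nat.log 2 K) * m * q < clo σ (K * q) ω x y then 1 else 0) ≤ (1 / 2) ^ m

open Classical in
/-- OMT. All particles are regular with large probability, `d ≥ 2`.
Proof. As `Q292.LC.S_OMP`: union bound with JMP and KHT, `m = κ₀ / (C (1 + log₂ K))`. -/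
def S_OMT : Prop := ∀ d : ℕ, 2 ≤ d → ∃ C : ℕ, 1 ≤ C ∧ ∀ (L : ℕ) [NeZero L], 3 ≤ L → ∀ K : ℕ,
  K ≤ L ^ d → ∀ ρ κ₀ : ℕ, ∃ q₀ : ℕ, ∀ q ≥ q₀, ∀ σ : ℕ → (Fin d → ZMod L) × Fin d, Per σ →
  ∀ δ : ℝ, 1 ≤ δ * q → δ * q ≤ 2 →
  EE (K * (q * ms d L)) δ (fun ω => if Om σ q K ρ κ₀ ω then 0 else 1) ≤
    C * ((L : ℝ) ^ (2 * d) * Real.exp (-(ρ : ℝ)) +
      (L : ℝ) ^ (2 * d) * (1 / 2) ^ (κ₀ / (C * (1 + Nat.log 2 K))))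

open Classical in
/-- BTT. The environment of the marked particles is good with large probability, `d ≥ 2`.
Proof. As `Q292.LC.S_BAD` and `Q292.LC.S_BTL`, with KRT instead of KER and OMT instead of OMP:
`PW (¬ Gd) ≤ E 1[¬ Om] + PW (Om ∧ viol)` by OMR (`j = 0`); BADP with `u = q ms`, `B v = bal v r`
(`|bal v r| ≤ (2 r + 1)^d`), `Gd` with `2 κ₀` (OMR, GDM); its hypothesis on `bd` follows from KRT (for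
`w' ≤ w` the bound is not larger) and GRN; `b.choose (lam+1) ≤ b^(lam+1)`. The last claim is MRK. -/
def S_BTT : Prop := ∀ d : ℕ, 2 ≤ d → ∃ (C m : ℕ), 1 ≤ C ∧ ∀ Z : ℕ, C ≤ Z →
  ∀ (L K lam r ρ κ₀ : ℕ) [NeZero L], lam ≤ Z → ρ ≤ Z → 2 * κ₀ + 1 ≤ Z →
  Z ^ m ≤ r → 8 * Z ^ m ≤ L → Z ^ m ≤ K → K ≤ L ^ d →
  ∃ q₀ : ℕ, ∀ q ≥ q₀,
  ∀ σ : ℕ → (Fin d → ZMod L) × Fin d, Per σ → ∀ δ : ℝ, 1 ≤ δ * q → δ * q ≤ 2 →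
  ∀ w : ℝ, 0 ≤ w → w < 1 → ∀ κ : ℝ,
  κ = (Z : ℝ) ^ m * ((1 + Real.log (1 / (1 - w))) / K + 1 / ((L : ℝ) ^ d * (1 - w))) →
  (lam + 2) * κ ≤ 1 →
  PW (ed ∘ σ) (K * (q * ms d L)) δ w (fun ω A => ¬ Gd σ q K lam r ρ (2 * κ₀) ω A) ≤
    C * ((L : ℝ) ^ (2 * d) * Real.exp (-(ρ : ℝ)) +
      (L : ℝ) ^ (2 * d) * (1 / 2) ^ (κ₀ / (C * (1 + Nat.log 2 K)))) +
    K * (L : ℝ) ^ (2 * d) * (lam + 1) * ((2 * r + 1 : ℕ) : ℝ) ^ d *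
      (((2 * r + 1 : ℕ) : ℝ) ^ d * ((lam + 2) * κ)) ^ lam ∧
  ∀ x, PW (ed ∘ σ) (K * (q * ms d L)) δ w
    (fun ω A => x ∈ A ∧ Gd σ q K lam r ρ (2 * κ₀) ω A) ≤ κ

/-- TLT. Cycles are long, for circuits, `d ≥ 2`.
Proof. As `Q292.LC.S_TLC`: `EE (w ^ |cyc x|) = PW (x ∈ A) ≤ PW (x ∈ A ∧ Gd) + PW (¬ Gd)` (PEB). Let `C₁, m₁`
be from BTT, `m₂ ≥ (2 d m₁ + 4 m₁ + 8) / ε`, `Z = ⌊K^(1/m₂)⌋`, `r = Z^m₁`, `lam = ρ = Z`, `κ₀ = (Z - 1) / 2`.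
`K ≥ (log L)^m` with `m ≥ 3 m₂`, so `Z ≥ C₂ (log L)²` (for `K ≥ m` large) with `C₂` as large as we like; so
`κ₀ / (C₁ (1 + log₂ K)) ≥ 10 d log L` (`log₂ K ≤ 2 d log L`). `1 - w ≥ K / (2 L^d)`, so
`1 + log (1/(1-w)) ≤ Z` and `κ ≤ Z^(m₁+1) (1/K + 1/(L^d (1-w))) ≤ 3 Z^(m₁+1) / K`. So `(Z + 2) κ ≤ 1`,
`(2 r + 1)^d (Z + 2) κ ≤ e^(-10 d)` because `K ≥ Z^m₂`, hence `PW (¬ Gd) ≤ C L^(-d) ≤ C / (L^d (1 - w))`,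
and `Z^(m₁+1) ≤ K^ε`. -/
def S_TLT : Prop := ∀ d : ℕ, 2 ≤ d → ∀ ε : ℝ, 0 < ε → ∃ (C : ℝ) (m : ℕ), 1 ≤ C ∧
  ∀ (L K : ℕ) [NeZero L] (w : ℝ),
  m ≤ K → K ≤ L ^ d → (Real.log L) ^ m ≤ K → 0 ≤ w → w < 1 →
  1 / ((L : ℝ) ^ d * (1 - w)) ≤ 2 / K →
  ∃ q₀ : ℕ, ∀ q ≥ q₀, ∀ σ : ℕ → (Fin d → ZMod L) × Fin d, Per σ → ∀ δ : ℝ,
  1 ≤ δ * q → δ * q ≤ 2 → ∀ x,
  EE (K * (q * ms d L)) δ (fun ω => w ^ (cyc (gp (ed ∘ σ) ω (K * (q * ms d L))) x).card) ≤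
    C * (K : ℝ) ^ ε * (1 / K + 1 / ((L : ℝ) ^ d * (1 - w)))

/-- TST. Cycles are long, for stirring, `d ≥ 2`.
Proof. As `Q292.LC.S_TLS` with TLT: `K = ⌊t⌋ ≤ L^d`, `δ = t / (K q)`, `w = 1 - 1/(2 N)`, `w^N ≥ 1/2`,
`1/(L^d (1-w)) = 2 N / L^d ≤ 2 / t ≤ 2 / K`; TRO with `F g = 1[|cyc g x| ≤ N]`, `q → ∞`. -/
def S_TST : Prop := ∀ d : ℕ, 2 ≤ d → ∀ ε : ℝ, 0 < ε → ∃ (C : ℝ) (m : ℕ), 1 ≤ C ∧
  ∀ (L N : ℕ) [NeZero L] (t : ℝ),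
  m ≤ t → (Real.log L) ^ m ≤ t → 1 ≤ N → N * t ≤ (L : ℝ) ^ d → ∀ x : Fin d → ZMod L,
  stirExp (nnRate d L) t (fun g => if (cyc g x).card ≤ N then 1 else 0) ≤
    C * t ^ ε * (1 / t + N / (L : ℝ) ^ d)

/-- FXT. At every large fixed time, for all sizes of the torus: cycles longer than `exp (t^c)`.
Proof. If `log L ≤ t^(1/m)` (`m` from TST) this is TST. Otherwise let `L₀ = ⌊exp (t^(1/m))⌋ < L` and use LCS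
(`Q292.LC.S_LCS`) with `R₀ = ⌊L₀ / 8⌋`, `D = ⌈t^3⌉ * ...` such that the last term is small: `D / t ≥ t²`,
`C (2 R₀ + 1)^d t exp (-(D/t)) ≤ C exp (2 d t^(1/m) + t - t²)` and `n D ≤ R₀` for `n ≤ exp (t^c)`, `c < 1/m`,
`t` large. -/
def S_FXT : Prop := ∀ d : ℕ, 2 ≤ d → ∀ ε : ℝ, 0 < ε → ∃ C c : ℝ, 0 < c ∧
  ∀ (L N : ℕ) [NeZero L] (t : ℝ), C ≤ t → (N : ℝ) ≤ Real.exp (t ^ c) → N * t ≤ (L : ℝ) ^ d →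
  ∀ x : Fin d → ZMod L,
  stirExp (nnRate d L) t (fun g => if (cyc g x).card ≤ N then 1 else 0) ≤
    C * t ^ ε * (1 / t + N / (L : ℝ) ^ d)

/-- DVT. Boxes of side about `K^(7/16)` see the same fractions as the torus, `d ≥ 2`.
Proof. As `Q292.LC.S_DEV`, with BTT and LMT. `w = 1 - K^(1/4) / L^d` (`≥ 1/2`), `Z = ⌈C₂ (log L)²⌉` with `C₂`
large (so that `κ₀ / (C₁ (1 + log₂ K)) ≥ 10 d log L` for `κ₀ = (Z - 1)/2`, and `L^d ≤ exp Z`),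
`lam = ρ = Z`, `r₁ = ⌊K^(1/(8 d))⌋`. If `K ≥ (log L)^m`, `m` large, every needed power of `Z` is at most
`K^(1/100)` (for `L ≥ L₀`). `κ ≤ Z^(m₁) ((1 + log L^d) / K + K^(-1/4)) ≤ K^(-1/4 + 1/50)`,
`(2 r₁ + 1)^d (Z + 2) κ ≤ K^(1/8 + 1/100 - 1/4 + 1/50) ≤ e^(-10 d)`: `PW (¬ Gd) ≤ L^(-d)`. On
`B ω A = Gd σ q K Z r₁ Z (2 κ₀) ω A`: DVA with `Dm = A` and
`η = Z^(m₂) / r₁^d ≤ K^(-1/8 + 1/50)`: `Qb r g - Qv g ≤ 3 ∑_z ∑_{x ∉ A} (s_z x)² + 24 η² + 2 |A| / L^d`;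
off `B` it is `≤ 1`. RES for each `z` with `φ ω A = phz r A z` (it does not depend on `ω`),
`Λ = Z^(m₂) K^(-3/8)`: `PE (1_B ∑ (s_z x)²) ≤ (1 - w) Λ`; sum over `z`: `L^d (1 - w) Λ = K^(1/4) Λ ≤
K^(-1/8 + 1/50)`. `PE (1_B |A| / L^d) ≤ κ`. Total `≤ K^(-1/16)`. -/
def S_DVT : Prop := ∀ d : ℕ, 2 ≤ d → ∃ m L₀ : ℕ,
  ∀ (L K r : ℕ) [NeZero L], L₀ ≤ L → (Real.log L) ^ m ≤ K → K ^ 4 ≤ L ^ 7 →
  r ^ 16 ≤ K ^ 7 → K ^ 7 ≤ (2 * r) ^ 16 →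
  ∃ q₀ : ℕ, ∀ q ≥ q₀, ∀ σ : ℕ → (Fin d → ZMod L) × Fin d, Per σ → ∀ δ : ℝ,
  1 ≤ δ * q → δ * q ≤ 2 →
  EE (K * (q * ms d L)) δ (fun ω => Qb r (gp (ed ∘ σ) ω (K * (q * ms d L))) -
    Qv (gp (ed ∘ σ) ω (K * (q * ms d L)))) ≤ (K : ℝ) ^ (-(1 / 16) : ℝ)

/-- PQT. Two uniform points are in the same cycle with probability `≥ 1/2 - C t^(-1/16)`, `d ≥ 2`.
Proof. `K = ⌊t⌋`, `δ = t / (K q)`, `r = ⌊K^(7/16)⌋` (then `r^16 ≤ K^7 ≤ (2 r)^16`). QLO: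
`stirExp t (Qb r) ≥ 1/2 - C r / √t ≥ 1/2 - C t^(-1/16)`. DVT and TRO with `F = Qb r - Qv` (`|F| ≤ 1`),
`q → ∞`. `K ≥ (log L)^m` if `t ≥ (log L)^(m+1)`, `L` large; `K^4 ≤ t^4 ≤ L^7`. For `L < L₀` make `C` large. -/
def S_PQT : Prop := ∀ d : ℕ, 2 ≤ d → ∃ (C : ℝ) (m : ℕ), 1 ≤ C ∧ ∀ (L : ℕ) [NeZero L] (t : ℝ),
  3 ≤ L → 1 ≤ t → (Real.log L) ^ m ≤ t → t ^ 4 ≤ (L : ℝ) ^ 7 →
  1 / 2 - C * t ^ (-(1 / 16) : ℝ) ≤ stirExp (nnRate d L) t (fun g => Qv g)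

end Q295.PL
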