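import Pool.Agent.Q295.PL.Fin
import Pool.Agent.Q38.L2.Lpt
import Pool.Agent.Q299.PL.WIN
import Pool.Agent.Q299.PL.NSH
import Pool.Agent.Q190.L2.Krt
import Pool.Agent.Q285.L2.Bxp
import Pool.Agent.Q285.L2.Omt
import Pool.Agent.Q14.PL.Lmt
import Pool.Agent.Q26.L2.Clt
import Pool.Agent.Q26.L2.Pqt
import Pool.Agent.Q277.LC.Btt
import Pool.Agent.Q277.LC.Fxt
import Pool.Agent.Q277.LC.Qlo
import Pool.Agent.Q176.L2.Dvt
import Pool.Agent.Q176.L2.Tlt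
import Pool.Agent.Q176.L2.Tst
import Pool.Agent.Q257.LC.KerU
import Pool.Agent.Q66.LC.Jmp
import Pool.Agent.Q297.LC.Lcs

/-!
# Project LC2: the two final statements
-/

set_option autoImplicit false

namespace Q295.PL

theorem all_win : S_WIN := Q299.PL.win

theorem all_krt : S_KRT :=
  Pool.Agent.Q190.L2.krt (Pool.Agent.Q38.L2.lpm
    (Pool.Agent.Q38.L2.wir Pool.Agent.Q187.LC.Rev.rev all_win) Q299.PL.nsh)

theorem all_omt : S_OMT :=
  Pool.Agent.Q285.L2.omt Pool.Agent.Q66.LC.jmp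
    (Pool.Agent.Q26.L2.kht (Pool.Agent.Q26.L2.clt Pool.Agent.Q257.LC.fre))

theorem all_btt : S_BTT := Pool.Agent.Q277.LC.btt all_krt all_omt

theorem all_pqt : S_PQT :=
  Pool.Agent.Q26.L2.pqt (Pool.Agent.Q176.L2.Dvt.dvt all_btt
    (Pool.Agent.Q14.PL.lmt all_win Pool.Agent.Q285.L2.bxp)) Pool.Agent.Q277.LC.qlo

theorem all_tst : S_TST := Pool.Agent.Q176.L2.Tst.tst (Pool.Agent.Q176.L2.Tlt.tlt all_btt)

theorem all_fxt : S_FXT :=
  Pool.Agent.Q277.LC.fxt all_tst (Pool.Agent.Q297.LC.lcs Pool.Agent.Q66.LC.jmp)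

end Q295.PL
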