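import Pool.Agent.Q295.PL.Stm2
import Pool.Agent.Q295.BD.Fin

/-!
# Project LC2: two uniform points in dimension two, all times `t ≥ (log L)^m`
-/

set_option autoImplicit false

namespace Q295.PL

open Finset Equiv Filter Topology Q292.LC
open Pool.Agent.Y998.ST
open Pool.Agent.Q295.TP (qq2 gg sm sc kap k_points)

theorem qv_eq {d L : ℕ} [NeZero L] (t : ℝ) :
    stirExp (nnRate d L) t (fun g => Qv g) = qq2 (nnRate d L) t := by
  classical
  have hc : (Fintype.card (Fin d → ZMod L) : ℝ) = (L : ℝ) ^ d := by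
    rw [Fintype.card_fun, ZMod.card, Fintype.card_fin]
    push_cast
    rfl
  unfold qq2 gg stirExp
  rw [hc, ← pow_mul, mul_comm d 2]
  have h1 : ∀ x : Fin d → ZMod L, ∑ y, ∑ g, stirLaw (nnRate d L) t g * sm g x y =
      ∑ g, stirLaw (nnRate d L) t g * ∑ y, sm g x y := by
    intro x
    rw [Finset.sum_comm]
    refine Finset.sum_congr rfl fun g _ => ?_
    rw [Finset.mul_sum]
  simp only [h1]
  rw [Finset.sum_comm, Finset.sum_div]
  refine Finset.sum_congr rfl fun g _ => ?_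
  rw [← Finset.mul_sum, mul_div_assoc]
  congr 2

/-- two uniform points at all times `t ≥ (log L)^m` -/
theorem q_two (hP : S_PQT) : ∃ m : ℕ, 1 ≤ m ∧ ∀ δ : ℝ, 0 < δ → ∃ L₀ : ℕ,
    ∀ (L : ℕ) [NeZero L], L₀ ≤ L → ∀ t : ℝ, (Real.log L) ^ m ≤ t →
      1 ≤ t ∧ 1 / 2 - δ ≤ qq2 (nnRate 2 L) t := by
  obtain ⟨C, m, hC, h⟩ := hP 2 le_rfl
  refine ⟨m + 1, by omega, fun δ hδ => ?_⟩
  obtain ⟨L₁, hq⟩ := Pool.Agent.Q295.BD.q_final 2 (by norm_num) le_rfl (1 / 4) (by norm_num) δ hδ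
  have hlog : Tendsto (fun L : ℕ => Real.log (L : ℝ)) atTop atTop :=
    Real.tendsto_log_atTop.comp tendsto_natCast_atTop_atTop
  have hs : Tendsto (fun L : ℕ => C * (Real.log (L : ℝ)) ^ (-(1 / 16) : ℝ)) atTop (𝓝 0) := by
    have h1 := ((tendsto_rpow_neg_atTop (show (0 : ℝ) < 1 / 16 by norm_num)).comp hlog).const_mul C
    rw [mul_zero] at h1
    exact h1
  obtain ⟨L₂, h2⟩ := eventually_atTop.1
    ((hlog.eventually_ge_atTop 1).and (hs.eventually_le_const hδ))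
  refine ⟨max 3 (max L₁ L₂), fun L _ hL t ht => ?_⟩
  have hL3 : 3 ≤ L := le_trans (le_max_left _ _) hL
  have hL1 : L₁ ≤ L := le_trans ((le_max_left _ _).trans (le_max_right _ _)) hL
  obtain ⟨h3, h4⟩ := h2 L (le_trans ((le_max_right _ _).trans (le_max_right _ _)) hL)
  have hlt : Real.log L ≤ t := by
    refine le_trans ?_ ht
    calc Real.log L = Real.log L ^ 1 := (pow_one _).symm
      _ ≤ _ := pow_le_pow_right₀ h3 (by omega)
  have ht1 : 1 ≤ t := h3.trans hlt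
  have hLR : (3 : ℝ) ≤ L := by exact_mod_cast hL3
  have hL0 : (0 : ℝ) < L := by linarith
  refine ⟨ht1, ?_⟩
  by_cases hc : t ^ 4 ≤ (L : ℝ) ^ 7
  · have h5 := h L t hL3 ht1 ((pow_le_pow_right₀ h3 (by omega)).trans ht) hc
    rw [qv_eq] at h5
    have h6 : t ^ (-(1 / 16) : ℝ) ≤ (Real.log (L : ℝ)) ^ (-(1 / 16) : ℝ) :=
      Real.rpow_le_rpow_of_nonpos (by linarith) hlt (by norm_num)
    have h7 := mul_le_mul_of_nonneg_left h6 (show 0 ≤ C by linarith)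
    linarith
  · rw [not_le] at hc
    refine (hq L hL1 t ?_).2
    have e1 : ((L : ℝ) ^ (Pool.Agent.Q295.BD.ae 2 + 1 / 4)) ^ 4 ≤ t ^ 4 := by
      have e2 : ((L : ℝ) ^ (Pool.Agent.Q295.BD.ae 2 + 1 / 4)) ^ 4 = (L : ℝ) ^ 7 := by
        rw [← Real.rpow_natCast, ← Real.rpow_mul hL0.le, ← Real.rpow_natCast]
        congr 1
        unfold Pool.Agent.Q295.BD.ae
        norm_num
      rw [e2]
      exact hc.le
    exact (pow_le_pow_iff_left₀ (by positivity) (by linarith) (by norm_num)).1 e1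

/-- `k` points with a rate -/
theorem k_rate (hP : S_PQT) : ∃ m : ℕ, ∀ k : ℕ, ∃ C : ℝ, 0 < C ∧ ∀ (L : ℕ) [NeZero L], 3 ≤ L →
    ∀ t : ℝ, 1 ≤ t → (Real.log L) ^ m ≤ t → t ^ 4 ≤ (L : ℝ) ^ 7 →
    ∀ b : Fin k → Fin 2 → ZMod L, Function.Injective b → ∀ R : Fin k → Fin k → Prop,
      |Pool.Agent.Q295.TP.PR (nnRate 2 L) t R b - Pool.Agent.Q295.TP.uR R| ≤
        C * t ^ (-(1 / 32) : ℝ) := by
  obtain ⟨C₁, m, hC₁, h⟩ := hP 2 le_rfl
  refine ⟨m, fun k => ?_⟩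
  obtain ⟨C, hC, hk⟩ := k_points 2 (by norm_num) k
  refine ⟨C * Real.sqrt (2 + C₁), by positivity, fun L _ hL t ht hlt hc b hb R => ?_⟩
  refine (hk L hL t ht b hb R).trans ?_
  have ht0 : 0 < t := by linarith
  have hLR : (3 : ℝ) ≤ L := by exact_mod_cast hL
  have hL0 : (0 : ℝ) < L := by linarith
  obtain ⟨u, hu⟩ : ∃ u : ℝ, u = t ^ (-(1 / 16) : ℝ) := ⟨_, rfl⟩
  have hu0 : 0 < u := by rw [hu]; exact Real.rpow_pos_of_pos ht0 _
  have h1 := h L t hL ht hlt hc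
  rw [qv_eq, ← hu] at h1
  have h2 : sc 2 L t ≤ 2 * u := by
    unfold sc kap
    have e1 : t ^ (-(((2 : ℕ) : ℝ) / (2 * (((2 : ℕ) : ℝ) + 1)))) ≤ u := by
      rw [hu]
      exact Real.rpow_le_rpow_of_exponent_le ht (by norm_num)
    have e2 : 1 / (L : ℝ) ^ 2 ≤ u := by
      have e3 : t ^ (1 / 16 : ℝ) ≤ (L : ℝ) ^ 2 := by
        have e4 : t ≤ (L : ℝ) ^ 2 := by
          by_contra hcon
          rw [not_le] at hcon
          have e5 : ((L : ℝ) ^ 2) ^ 4 < t ^ 4 := pow_lt_pow_left₀ hcon (by positivity) (by norm_num)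
          have e6 : (L : ℝ) ^ 7 ≤ ((L : ℝ) ^ 2) ^ 4 := by
            rw [← pow_mul]
            exact pow_le_pow_right₀ (by linarith) (by norm_num)
          linarith
        refine le_trans ?_ e4
        calc t ^ (1 / 16 : ℝ) ≤ t ^ (1 : ℝ) := Real.rpow_le_rpow_of_exponent_le ht (by norm_num)
          _ = t := Real.rpow_one t
      rw [hu, Real.rpow_neg ht0.le, one_div]
      exact inv_anti₀ (Real.rpow_pos_of_pos ht0 _) e3
    linarith
  have h3 : max 0 (1 / 2 - qq2 (nnRate 2 L) t) ≤ C₁ * u :=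
    max_le (by positivity) (by linarith)
  have h4 : sc 2 L t + max 0 (1 / 2 - qq2 (nnRate 2 L) t) ≤ (2 + C₁) * u := by
    have : (2 + C₁) * u = 2 * u + C₁ * u := by ring
    linarith
  have h5 : Real.sqrt u = t ^ (-(1 / 32) : ℝ) := by
    rw [hu, Real.sqrt_eq_rpow, ← Real.rpow_mul ht0.le]
    norm_num
  calc C * Real.sqrt (sc 2 L t + max 0 (1 / 2 - qq2 (nnRate 2 L) t))
      ≤ C * Real.sqrt ((2 + C₁) * u) := mul_le_mul_of_nonneg_left (Real.sqrt_le_sqrt h4) hC.le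
    _ = C * Real.sqrt (2 + C₁) * t ^ (-(1 / 32) : ℝ) := by
        rw [Real.sqrt_mul (by linarith), h5]
        ring

end Q295.PL
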