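import Pool.Agent.Q292.LC.Stm7

/-!
# Project LC, dimension two (all `d ≥ 2`): quenched bounds with powers of the logarithm

Everything here holds in all dimensions `d ≥ 2`. Notation as in project LC of helper292
(`Pool/Agent/Q292/LC`): `e = ed ∘ σ` with `Per σ`, `n = u q ms` steps are `u` units,
`TT e ω A δ n` is the transition matrix of the walk in the environment of the particles started
in `A`. `A_n = A.image (gp e ω n)` are their positions at time `n`. New idea: no tail estimates and no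
contact numbers; a window of `u` units is analysed with the JENSEN DEFECT: for a doubly stochastic
matrix `T`, `∑ x, ∑ z, T x z (F z - (T F) x)² = ∑ F² - ∑ (T F)²`.
-/

set_option autoImplicit false

namespace Q295.PL

open Finset Equiv Matrix Q292.LC
open Pool.Agent.Y998.ST (stirExp nnRate qq)

section defs

variable {V : Type} [DecidableEq V] [Fintype V]

/-- Backward evolution of a function: `bw .. n F j` is what the last `j` of the `n` step matrices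
make of `F`, so `bw .. n F n = TT e ω A δ n *ᵥ F`. -/
def bw (e : ℕ → V × V) (ω : ℕ → Bool) (A : Finset V) (δ : ℝ) (n : ℕ) (F : V → ℝ) : ℕ → V → ℝ
  | 0 => F
  | j + 1 => Mx e ω A δ (n - 1 - j) *ᵥ bw e ω A δ n F j

/-- the squared differences of the backward evolution along the free steps -/
noncomputable def dsp (e : ℕ → V × V) (ω : ℕ → Bool) (A : Finset V) (δ : ℝ) (n : ℕ)
    (F : V → ℝ) (j : ℕ) : ℝ :=
  if tch e ω A (n - 1 - j) then 0 else
    (bw e ω A δ n F j (e (n - 1 - j)).1 - bw e ω A δ n F j (e (n - 1 - j)).2) ^ 2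

variable {d L : ℕ}

/-- `y` moves every site to a site off `A` at distance `≤ m`, and does not move the sites off `A` -/
def Ex (A : Finset (Fin d → ZMod L)) (m : ℕ) (y : (Fin d → ZMod L) → (Fin d → ZMod L)) : Prop :=
  ∀ x, y x ∉ A ∧ td x (y x) ≤ m ∧ (x ∉ A → y x = x)

variable [NeZero L]

/-- nearest neighbour Dirichlet energy on the torus -/
def gE (g : (Fin d → ZMod L) → ℝ) : ℝ :=
  ∑ i : (Fin d → ZMod L) × Fin d, (g (ed i).1 - g (ed i).2) ^ 2

end defs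

/-- EXT. Sites off `A` near every site.
Proof. If `x ∉ A` take `y x = x`. Otherwise the `m + 1` sites `x + j e_0`, `0 ≤ j ≤ m`, are different
(`m < L`) and lie in `bal x m` (`td x (x + j e_0) ≤ j`), so one of them is not in `A`. -/
def S_EXT : Prop := ∀ (d L : ℕ) [NeZero L], 1 ≤ d → ∀ (A : Finset (Fin d → ZMod L)) (m : ℕ), m < L →
  (∀ v, (A ∩ bal v m).card ≤ m) → ∃ y, Ex A m y

/-- NSH. Nash inequality for a function which vanishes on a sparse set.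
Proof. Let `G = g ∘ y`, so `0 ≤ g ≤ G` off `A` and `g = 0` on `A`: `∑ g² ≤ ∑ G²`. For
`v ∈ {0, ..., R-1}^d` (as a vector of the torus) `∑_x (G (x + v) - G x)² ≤ (d R)² gE G`: go from `x` to
`x + v` by unit steps, coordinate by coordinate, Cauchy-Schwarz over the `≤ d R` steps, and sum over
`x` (every step gives at most `gE G`). Let `h x = R^(-d) ∑_v G (x + v)`. By Jensen
`∑ (G - h)² ≤ (d R)² gE G`. As the `R^d` vectors `v` are different (`R ≤ L`), `0 ≤ h ≤ R^(-d) ∑ G`, and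
`∑ h = ∑ G`, so `∑ h² ≤ R^(-d) (∑ G)²`. Finally `∑_x g (y x) ≤ (2 m + 1)^d ∑ g`, because
`y x = p` implies `x ∈ bal p m`, which has at most `(2 m + 1)^d` points (`td` is symmetric). -/
def S_NSH : Prop := ∀ (d L : ℕ) [NeZero L], 1 ≤ d → 3 ≤ L →
  ∀ (A : Finset (Fin d → ZMod L)) (m R : ℕ) (y : (Fin d → ZMod L) → (Fin d → ZMod L))
  (g : (Fin d → ZMod L) → ℝ), 1 ≤ R → R ≤ L → (∀ x, 0 ≤ g x) → (∀ x ∈ A, g x = 0) → Ex A m y →
  ∑ x, (g x) ^ 2 ≤ 2 * ((d : ℝ) * R) ^ 2 * gE (fun x => g (y x)) +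
    2 * ((2 * m + 1 : ℕ) : ℝ) ^ (2 * d) / (R : ℝ) ^ d * (∑ x, g x) ^ 2

/-- PTH. Two points of a ball with isolated holes.
Proof. Define `G p = f (p + e_1)` for `p ∈ H` (`e_1` the first unit vector) and `G p = f p` for `p ∉ H`. For a
nearest neighbour pair `p, p'` in `bal z R`: if none is in `H`, `(G p - G p')²` is a term of the sum on
the right (`bal z R ⊆ bal z (R + 3)`). If `p ∈ H` then `p' = p ± e_i ∉ H`, all points at distance 1 or 2
from `p` are off `H` and in `bal z (R + 3)`, and `p + e_1` is joined to `p'` by a path of at most 4 edges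
through such points (`p + e_1, p + e_1 ± e_i, p ± e_i` for `i ≠ 1`; for `p' = p - e_1` use a second
direction: `p + e_1, p + e_1 + e_2, p + e_2, p + e_2 - e_1, p - e_1`; this is where `d ≥ 2` is used). So
`(G p - G p')² ≤ 4` (sum of the `≤ 4` squares), and every edge is used by at most `C_d` pairs. Hence
the energy of `G` over the nearest neighbour pairs inside `bal z R` is at most `C_d E`, `E` the sum on the
right. Radial induction: for `x ∈ bal z R`, `k = td z x`: `(G x - G z)² ≤ k` (energy of `G` inside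
`bal z k`): choose a neighbour `x'` of `x` with `td z x' = k - 1`, then
`(G x - G z)² ≤ k (G x - G x')² + (k/(k-1)) (G x' - G z)²`, and the pair `x, x'` is not inside
`bal z (k-1)`. So `(f x - f y)² = (G x - G y)² ≤ 2 (G x - G z)² + 2 (G y - G z)² ≤ 4 R C_d E`. -/
def S_PTH : Prop := ∀ d : ℕ, 2 ≤ d → ∃ C : ℝ, 1 ≤ C ∧ ∀ (L : ℕ) [NeZero L], 3 ≤ L →
  ∀ (z : Fin d → ZMod L) (R : ℕ) (H : Finset (Fin d → ZMod L)) (f : (Fin d → ZMod L) → ℝ),
  (∀ h ∈ H ∩ bal z (R + 3), ∀ h' ∈ H ∩ bal z (R + 3), h ≠ h' → 3 < td h h') →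
  ∀ x ∈ bal z R \ H, ∀ y ∈ bal z R \ H,
  (f x - f y) ^ 2 ≤ C * (R + 1) * ∑ i : (Fin d → ZMod L) × Fin d,
    (if (ed i).1 ∈ bal z (R + 3) \ H ∧ (ed i).2 ∈ bal z (R + 3) \ H then
      (f (ed i).1 - f (ed i).2) ^ 2 else 0)

/-- BWB. Basic facts on the backward evolution.
Proof. (1) induction on `j`: `TT e ω A δ n = TT (n - j) * (product of the last j step matrices)`.
(2) `Mx` of step `a + k` for `A` is `Mx` of step `k` of the circuit shifted by `a`, for the positions of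
`A` after `a` steps (BAS1 (1): `tch e ω A (a + k) ↔ tch (sh a e) (sh a ω) (A.image (gp e ω a)) k`).
(3) Telescoping: a step which is touched is a permutation matrix and preserves `∑ F²`; a free step
with end points `a ≠ b` maps `(F a, F b)` to `((1-δ) F a + δ F b, (1-δ) F b + δ F a)` and
`F a² + F b² - (..)² - (..)² = 2 δ (1 - δ) (F a - F b)²`. -/
def S_BWB : Prop := ∀ (V : Type) [Fintype V] [DecidableEq V] (e : ℕ → V × V) (ω : ℕ → Bool)
  (A : Finset V) (δ : ℝ) (F : V → ℝ),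
  (∀ n, ∀ j ≤ n, TT e ω A δ n *ᵥ F = TT e ω A δ (n - j) *ᵥ bw e ω A δ n F j) ∧
  (∀ a b, ∀ j ≤ b, bw e ω A δ (a + b) F j =
      bw (sh a e) (sh a ω) (A.image (gp e ω a)) δ b F j) ∧
  (∀ a b, ∀ j < b, dsp e ω A δ (a + b) F j =
      dsp (sh a e) (sh a ω) (A.image (gp e ω a)) δ b F j) ∧
  ((∀ k, (e k).1 ≠ (e k).2) → ∀ n, ∀ j ≤ n, ∑ x, (F x) ^ 2 - ∑ x, (bw e ω A δ n F j x) ^ 2 =
      2 * δ * (1 - δ) * ∑ i ∈ Finset.range j, dsp e ω A δ n F i)

/-- SWB. One sweep without particle moves in a ball: energy at the end of the sweep.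
Proof. As in step (2) of `Q292.LC.S_SWD` (proved in Pool/Agent/Q53/LC/Swd.lean), with the order of
the steps reversed: `k = ms - 1 - j` runs backwards. No particle of `A` enters, leaves or moves inside
`bal z (R + 1)` during the sweep (a move is a touched step with coin `true` and has an end point in the
ball), so for an edge `i` with both end points in `bal z R` and off `A` the step `k_i` of the sweep with
this edge is free. The values of the backward evolution at these end points are changed by the steps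
`k > k_i` only if the step contains one of them; such a step has both end points in `bal z (R + 1)`; if
it is touched its coin is `false` and it changes nothing, if it is free it changes the value by at most
`δ |difference along the step|`. So, with `v_j = |difference|` of the backward evolution along free
steps, `|F(i.1) - F(i.2)| ≤ v_(j_i) + δ ∑_{j ~ j_i} v_j` with at most `4 d` terms, every `j` being counted for
at most `4 d` edges. Hence the sum is `≤ 2 ∑ v_j² + 2 δ² (4 d)(4 d) ∑ v_j² ≤ 3 ∑ v_j²`. -/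
def S_SWB : Prop := ∀ (d L : ℕ) [NeZero L], 1 ≤ d → 3 ≤ L →
  ∀ σ : ℕ → (Fin d → ZMod L) × Fin d, Per σ → ∀ (ω : ℕ → Bool) (A : Finset (Fin d → ZMod L))
  (δ : ℝ) (z : Fin d → ZMod L) (R : ℕ) (F : (Fin d → ZMod L) → ℝ), 0 < δ → 16 * d * δ ≤ 1 →
  (∀ k < ms d L, ω k = true → tch (ed ∘ σ) ω A k →
    (ed (σ k)).1 ∉ bal z (R + 1) ∧ (ed (σ k)).2 ∉ bal z (R + 1)) →
  ∑ i : (Fin d → ZMod L) × Fin d, (if (ed i).1 ∈ bal z R \ A ∧ (ed i).2 ∈ bal z R \ A then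
      (F (ed i).1 - F (ed i).2) ^ 2 else 0) ≤
    3 * ∑ j ∈ Finset.range (ms d L), (if (ed (σ (ms d L - 1 - j))).1 ∈ bal z (R + 1) ∧
      (ed (σ (ms d L - 1 - j))).2 ∈ bal z (R + 1) then dsp (ed ∘ σ) ω A δ (ms d L) F j else 0)

/-- NRW. The walk stays near its starting point with probability at least `1/2`.
Proof. KIL (Pool/Agent/Q53/LC/Kil.lean): the killed evolution `kv` from `single z 1` loses at most
`exp (C₀ (u + N) - R) ≤ 1/2` of its mass until step `u q ms`. Its total mass is nonincreasing in the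
number of steps and `kv_k ≤` row `z` of `TT k` (induction), supported in `bal z R` (for `k > 0`; for
`k = 0` the claim is trivial). -/
def S_NRW : Prop := ∀ d : ℕ, 1 ≤ d → ∃ C : ℝ, 1 ≤ C ∧ ∀ (L : ℕ) [NeZero L], 3 ≤ L →
  ∀ σ : ℕ → (Fin d → ZMod L) × Fin d, Per σ → ∀ (ω : ℕ → Bool) (A : Finset (Fin d → ZMod L))
  (δ : ℝ) (q u R N : ℕ) (z : Fin d → ZMod L), 0 < δ → C * δ ≤ 1 → δ * q ≤ 2 →
  ((Finset.range (u * (q * ms d L))).filter fun k => ω k = true ∧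
      tch (ed ∘ σ) ω A k ∧ ((ed (σ k)).1 ∈ bal z R ∨ (ed (σ k)).2 ∈ bal z R)).card ≤ N →
  C * (u + N + 1) ≤ R → ∀ k ≤ u * (q * ms d L),
  1 / 2 ≤ ∑ y ∈ bal z R, TT (ed ∘ σ) ω A δ k z y

/-- JEN. Jensen defect, near averages.
Proof. (1) expand the square, rows and columns of `T` sum up to `1`. (2) With `M = ∑_{z ∈ B} T x z ≥ 1/2`,
`a = (∑_{z ∈ B} T x z F z) / M`: `M (a - (T F) x) = ∑_{z ∈ B} T x z (F z - (T F) x)`, so by Cauchy-Schwarz
`M² (a - (T F) x)² ≤ M ∑_{z ∈ B} T x z (F z - (T F) x)²`; divide by `M²`, `1 / M ≤ 2`. -/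
def S_JEN : Prop := ∀ (V : Type) [Fintype V] [DecidableEq V] (T : Matrix V V ℝ) (F : V → ℝ),
  (∀ x y, 0 ≤ T x y) → (∀ x, ∑ y, T x y = 1) → (∀ y, ∑ x, T x y = 1) →
  ∑ x, ∑ z, T x z * (F z - (T *ᵥ F) x) ^ 2 = ∑ x, (F x) ^ 2 - ∑ x, ((T *ᵥ F) x) ^ 2 ∧
  ∀ (x : V) (B : Finset V), 1 / 2 ≤ ∑ z ∈ B, T x z →
    ((∑ z ∈ B, T x z * F z) / (∑ z ∈ B, T x z) - (T *ᵥ F) x) ^ 2 ≤
      2 * ∑ z, T x z * (F z - (T *ᵥ F) x) ^ 2

/-- WIN. THE WINDOW INEQUALITY: smoothing by `u` units in a sparse environment, backward evolution.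
Proof. `n = u q ms`, `g = TT n *ᵥ f`, `D = ∑ f² - ∑ g²`, `m = lam`, `R' = R + lam + 2`. For `s < u q` let
`k_s = (s + 1) ms` and `F_s = bw n f (n - k_s)` (the function at the end of sweep `s`), so
`g = TT k_s *ᵥ F_s` (BWB (1)), and `∑ F_s² ≤ ∑ f²` (BWB (3)). Fix a site `x`.
(a) Particles near `x`: those `a ∈ A` with `td x a ≤ R' + 7 + ρ u ≤ r`; by Ev (time `0`) at most `lam`. Every
particle makes at most `ρ u` jumps (each of distance 1) in the window, so no other particle comes into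
`bal x (R' + 6)`. The touched steps with coin `true` which meet `bal x (R' + 5)` move or touch a near
particle, a jump of it: at most `lam ρ u` steps. (A touched step with coin `true` whose edge contains
the position of a particle moves this particle.)
(b) Call sweep `s` nice if it contains no touched step with coin `true` which meets `bal x (R' + 5)` and if
at its end (time `k_s`) any two particles in `bal x (R' + 3)` have distance `> 3`. At most
`lam ρ u ≤ u q / 4` sweeps violate the first condition, at most `lam² κ₀ q ≤ u q / 4` the second (pairs of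
near particles; `s + 1 ≤ u q` is in the range of Ev). So at least `u q / 2` sweeps are nice.
(c) Let `p = y x`, `p' = y x'`, `x' = x + e_i`. Both are off `A` and `td x p, td x p' ≤ lam + 1`. For `p`: NRW
with `N = lam ρ u` gives `∑_{z ∈ bal p R} TT k_s p z ≥ 1/2`; with `a_p` the near average of `F_s`, JEN (2):
`(a_p - g p)² ≤ 2 Var_s p`, `Var_s p = ∑_z TT k_s p z (F_s z - g p)²`. The same for `p'`. As
`TT k_s p z = 0` for `z` in the positions `A_(k_s)` (BAS2, `p ∉ A`), `a_p - a_p'` is an average of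
`F_s z - F_s z'` with `z, z' ∈ bal x (R + lam + 1) \ A_(k_s)`.
(d) In a nice sweep, PTH (centre `x`, radius `R + lam + 1`, `H = A_(k_s)`) and SWB for the sweep `s`
(circuit shifted by `s ms`, which has the same edges; in a nice sweep the particles in
`bal x (R' + 3)` are at the same places at its beginning and end; BWB (2)) give
`(F_s z - F_s z')² ≤ 3 C_1 R' Σ_s x`, `Σ_s x` = the sum of `dsp` over the steps of sweep `s` with both
end points in `bal x (R' + 4)`. So `(g p - g p')² ≤ 6 Var_s p + 6 Var_s p' + 9 C_1 R' Σ_s x` for every nice `s`.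
(e) Sum over the nice sweeps (at least `u q / 2`) and over all `x` and directions `i`. A site `p` is `y x`
for at most `(2 lam + 1)^d` sites `x`; `∑_p Var_s p = ∑ F_s² - ∑ g² ≤ D` (JEN (1), TT doubly stochastic);
a step is in `bal x (R' + 4)` for at most `(2 (R' + 4) + 1)^d` sites `x`; the sum of all `dsp` is
`D / (2 δ (1 - δ)) ≤ D / δ` (BWB (3)). Hence `(u q / 2) gE ≤ 12 d (2 lam + 1)^d u q D + 9 C_1 R' d (2 R' + 9)^d D / δ`,
and `1 / (δ u q) ≤ 1`. With `lam ≤ R`, `R' ≤ 4 R`: `gE ≤ C R^(d+1) D`. -/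
def S_WIN : Prop := ∀ d : ℕ, 2 ≤ d → ∃ C : ℕ, 1 ≤ C ∧ ∀ (L : ℕ) [NeZero L], 3 ≤ L →
  ∀ σ : ℕ → (Fin d → ZMod L) × Fin d, Per σ → ∀ (ω : ℕ → Bool) (A : Finset (Fin d → ZMod L))
  (δ : ℝ) (q u lam r ρ κ₀ R : ℕ) (y : (Fin d → ZMod L) → (Fin d → ZMod L))
  (f : (Fin d → ZMod L) → ℝ), 0 < δ → C * δ ≤ 1 → 1 ≤ δ * q → δ * q ≤ 2 → 1 ≤ u →
  Ev σ q u lam r ρ κ₀ ω A → 4 * lam ^ 2 * κ₀ ≤ u → 4 * lam * ρ ≤ q →
  C * (lam + 1) * (ρ + 1) * u ≤ R → 4 * R ≤ r → Ex A lam y →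
  gE (fun x => (TT (ed ∘ σ) ω A δ (u * (q * ms d L)) *ᵥ f) (y x)) ≤
    C * (R : ℝ) ^ (d + 1) * (∑ x, (f x) ^ 2 -
      ∑ x, ((TT (ed ∘ σ) ω A δ (u * (q * ms d L)) *ᵥ f) x) ^ 2)

/-- WIR. The window inequality, forward evolution.
Proof. WIN for the reversed circuit (`Q292.LC.S_REV`, proved in Pool/Agent/Q187/LC/Rev.lean):
`ed ∘ rvs σ`, coins `rvo n ω`, particles `A_n`, whose matrix is the transpose; `Per (rvs σ)` and `Ev` hold
for it. -/
def S_WIR : Prop := ∀ d : ℕ, 2 ≤ d → ∃ C : ℕ, 1 ≤ C ∧ ∀ (L : ℕ) [NeZero L], 3 ≤ L →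
  ∀ σ : ℕ → (Fin d → ZMod L) × Fin d, Per σ → ∀ (ω : ℕ → Bool) (A : Finset (Fin d → ZMod L))
  (δ : ℝ) (q u lam r ρ κ₀ R : ℕ) (y : (Fin d → ZMod L) → (Fin d → ZMod L))
  (f : (Fin d → ZMod L) → ℝ), 0 < δ → C * δ ≤ 1 → 1 ≤ δ * q → δ * q ≤ 2 → 1 ≤ u →
  Ev σ q u lam r ρ κ₀ ω A → 4 * lam ^ 2 * κ₀ ≤ u → 4 * lam * ρ ≤ q →
  C * (lam + 1) * (ρ + 1) * u ≤ R → 4 * R ≤ r →
  Ex (A.image (gp (ed ∘ σ) ω (u * (q * ms d L)))) lam y →
  gE (fun x => (vecMul f (TT (ed ∘ σ) ω A δ (u * (q * ms d L)))) (y x)) ≤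
    C * (R : ℝ) ^ (d + 1) * (∑ x, (f x) ^ 2 -
      ∑ x, ((vecMul f (TT (ed ∘ σ) ω A δ (u * (q * ms d L)))) x) ^ 2)

/-- DEC. A recursion.
Proof. Assume `a j > 4 A / L^d` for all `j ≤ n` (otherwise we are done because `a` is nonincreasing). Let
`j < n`, `b = a (j + 1)`. Let `R ≥ 1` be minimal with `A / R^d ≤ b / 2`; `R ≤ L`. As `A ≥ 2 > b` we have
`R ≥ 2`, so `A / (R - 1)^d > b / 2`, hence `R ≤ 2 (R - 1) < 2 (2 A / b)^(1/d) ≤ 2 (2 A / b)^(1/2)`. So
`b / 2 ≤ B R² (a j - b) ≤ (8 A B / b) (a j - b)`, i.e. `a j - b ≥ b² / (16 A B)`. If `b ≥ a j / 2` this gives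
`1 / b - 1 / a j = (a j - b) / (b a j) ≥ 1 / (32 A B)`; if `b < a j / 2`, `1/b - 1/a j ≥ 1/(2 b) ≥ 1/2`. So
`1 / a n ≥ n / (32 A B)`. -/
def S_DEC : Prop := ∀ (d L n : ℕ) (A B : ℝ) (a : ℕ → ℝ), 2 ≤ d → 1 ≤ L → 2 ≤ A → 1 ≤ B → 1 ≤ n →
  (∀ j, 0 ≤ a j) → a 0 ≤ 1 → (∀ j < n, a (j + 1) ≤ a j) →
  (∀ j < n, ∀ R : ℕ, 1 ≤ R → R ≤ L →
    a (j + 1) ≤ A / (R : ℝ) ^ d + B * (R : ℝ) ^ 2 * (a j - a (j + 1))) →
  a n ≤ max (32 * A * B / n) (4 * A / (L : ℝ) ^ d)

/-- LPT. Decay of the square norm in an environment of `K` units.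
Proof. `u = 4 Z³`, `R = C (Z + 1)² u` (`C` the maximum of the constants of WIR), `J = ⌊K / u⌋ ≥ 1`. Let `f_j` be
the forward evolution after `j` windows of `u` units, `a j = ∑ f_j²`. By BAS2, `f_j ≥ 0`, `∑ f_j ≤ 1`,
`f_j = 0` on the positions `A_j` and `a` is nonincreasing. For window `j` (SUB) WIR with `y` from EXT for
`A_(j+1)` (`m = lam`; the counts in `bal v lam ⊆ bal v r` are `≤ lam`; `lam < L`) and NSH:
`a (j+1) ≤ A / R'^d + B R'² (a j - a (j+1))` for all `1 ≤ R' ≤ L`, `A = 2 (2 Z + 1)^(2d)`,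
`B = 2 d² C R^(d+1)`. DEC: `a J ≤ max (32 A B / J) (4 A / L^d)`, `1 / J ≤ 2 u / K`; the remaining `K - J u`
units do not increase the norm. Choose `m` so large that `Z^m` absorbs everything for `Z ≥ C'`. `q₀` such
that `4 Z² ≤ q₀` and `C δ ≤ 1` for `δ ≤ 2 / q₀`. -/
def S_LPT : Prop := ∀ d : ℕ, 2 ≤ d → ∃ (C m : ℕ), 1 ≤ C ∧ ∀ Z : ℕ, C ≤ Z →
  ∀ (L K lam r ρ κ₀ : ℕ) [NeZero L], lam ≤ Z → ρ ≤ Z → κ₀ ≤ Z → Z ^ m ≤ r → 8 * Z ^ m ≤ L →
  Z ^ m ≤ K → ∃ q₀ : ℕ, ∀ q ≥ q₀,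
  ∀ σ : ℕ → (Fin d → ZMod L) × Fin d, Per σ → ∀ δ : ℝ, 1 ≤ δ * q → δ * q ≤ 2 →
  ∀ (ω : ℕ → Bool) (A : Finset (Fin d → ZMod L)), Ev σ q K lam r ρ κ₀ ω A →
  ∀ f : (Fin d → ZMod L) → ℝ, (∀ x, 0 ≤ f x) → (∀ x ∈ A, f x = 0) → ∑ x, f x ≤ 1 →
  ∑ x, (vecMul f (TT (ed ∘ σ) ω A δ (K * (q * ms d L))) x) ^ 2 ≤
    (Z : ℝ) ^ m * (1 / K + 1 / (L : ℝ) ^ d)

/-- LPM. The same over many laps with killing.
Proof. As LPT, with the sequence of all complete windows of all laps: `f` restricted to `U` after each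
lap (this and the incomplete windows do not increase the norm, the positions of the particles at the
start of each lap are `R`, and `U` is disjoint from `R`). DEC with `n = k J` windows (if the norm before a
window is `a`, after it `a'`, and after further norm nonincreasing steps `a'' ≤ a'`, then
`a'' ≤ A / R'^d + B R'² (a - a'')` still holds). Here the evolution after `k + 1` laps is row `x` of
`T (dg U T)^k`. -/
def S_LPM : Prop := ∀ d : ℕ, 2 ≤ d → ∃ (C m : ℕ), 1 ≤ C ∧ ∀ Z : ℕ, C ≤ Z →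
  ∀ (L K lam r ρ κ₀ : ℕ) [NeZero L], lam ≤ Z → ρ ≤ Z → κ₀ ≤ Z → Z ^ m ≤ r → 8 * Z ^ m ≤ L →
  Z ^ m ≤ K → ∃ q₀ : ℕ, ∀ q ≥ q₀,
  ∀ σ : ℕ → (Fin d → ZMod L) × Fin d, Per σ → ∀ δ : ℝ, 1 ≤ δ * q → δ * q ≤ 2 →
  ∀ (ω : ℕ → Bool) (A : Finset (Fin d → ZMod L)), Ev σ q K lam r ρ κ₀ ω A →
  ∀ (U : Finset (Fin d → ZMod L)) (x : Fin d → ZMod L), Disjoint U A → x ∉ A → ∀ k : ℕ,
  ∑ z, ((TT (ed ∘ σ) ω A δ (K * (q * ms d L)) *
    (dg U * TT (ed ∘ σ) ω A δ (K * (q * ms d L))) ^ k) x z) ^ 2 ≤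
    (Z : ℝ) ^ m * (1 / ((k + 1 : ℕ) * K) + 1 / (L : ℝ) ^ d)

/-- KRT. Green function in a good environment, `d ≥ 2`.
Proof. As `Q292.LC.S_KER` with LPM instead of LAP. `T = TT .. n`, `R' = R.image (gp n)`, `U' = U \ R'`. For
`a ∉ R`, `b ∈ R'`: `T a b = 0` (BAS2), so `U` may be replaced by `U'` in all products, whose rows are not
in `R`; if `y ∈ R'` all terms vanish; let `y ∉ R'`. GE: `Ev` for `R` with `κ₀ + 1`. Forward: LPM for
`T (dg U' T)^i`, row `x`. Backward: column `y` of `T (dg U' T)^i` is row `y` of `Tᵀ (dg U' Tᵀ)^i`, the same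
for the reversed environment with particles `R'` (REV), `y ∉ R'`, `U'` disjoint from `R'`. For `k ≥ 1`:
`T (dg U' T)^k = [T (dg U' T)^i] dg U' [T (dg U' T)^(k-1-i)]`, `i = (k-1)/2`; Cauchy-Schwarz and
`√(a b) ≤ a + b`: `≤ C Z^m (1 / ((k+1) K) + L^(-d))`. For `k = 0` split the lap at the unit `⌊K/2⌋` (SUB,
LPT for both parts, the second one reversed). Sum: `∑ w^(k+1) / (k+1) ≤ log (1/(1-w))`,
`∑ w^(k+1) ≤ 1/(1-w)`. -/
def S_KRT : Prop := ∀ d : ℕ, 2 ≤ d → ∃ (C m : ℕ), 1 ≤ C ∧ ∀ Z : ℕ, C ≤ Z →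
  ∀ (L K lam r ρ κ₀ : ℕ) [NeZero L], lam ≤ Z → ρ ≤ Z → κ₀ + 1 ≤ Z →
  Z ^ m ≤ r → 8 * Z ^ m ≤ L → Z ^ m ≤ K → ∃ q₀ : ℕ, ∀ q ≥ q₀,
  ∀ σ : ℕ → (Fin d → ZMod L) × Fin d, Per σ → ∀ δ : ℝ, 1 ≤ δ * q → δ * q ≤ 2 →
  ∀ (ω : ℕ → Bool) (R : Finset (Fin d → ZMod L)), Gd σ q K lam r ρ κ₀ ω R →
  ∀ (w : ℝ) (U : Finset (Fin d → ZMod L)) (x y : Fin d → ZMod L), 0 ≤ w → w < 1 →
  Disjoint U R → x ∉ R → x ∉ U → y ∉ U → ∀ N : ℕ,
  ∑ k ∈ Finset.range N, w ^ (k + 1) * (TT (ed ∘ σ) ω R δ (K * (q * ms d L)) *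
    (dg U * TT (ed ∘ σ) ω R δ (K * (q * ms d L))) ^ k) x y ≤
    (Z : ℝ) ^ m * ((1 + Real.log (1 / (1 - w))) / K + 1 / ((L : ℝ) ^ d * (1 - w)))

end Q295.PL
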